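import Mathlib
import Pool.Agent.H68R2.BP.Props2
import Pool.Agent.H747R2.Kad.Fourth
import Pool.Agent.H143R2.Kad.Trunc
import Pool.Agent.H880R2.Kad.GtSa
import Pool.Agent.H873R2.Kad.GT

/-!
Improved row and column bounds for families in a small corner (task R_cor).
-/

open scoped ComplexOrder InnerProductSpace ComplexConjugate Topology
open Finset Filter

noncomputable section

namespace H68R2.BP

open H759R2.Kad H744R2.KZ

namespace R_coraux

theorem gt : St_gt.{0, 0} := prove_gt (prove_gtsa prove_fourth prove_trunc)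

variable {H : Type} [NormedAddCommGroup H] [InnerProductSpace ℂ H] [CompleteSpace H]

/-- the quadratic form of `∑ star (a i) * a i` -/
theorem inner_col {ι : Type} [Fintype ι] (a : ι → (H →L[ℂ] H)) (v w : H) :
    ⟪v, (∑ i, star (a i) * a i) w⟫_ℂ = ∑ i, ⟪a i v, a i w⟫_ℂ := by
  rw [_root_.sum_apply, inner_sum]
  refine sum_congr rfl fun i _ => ?_
  rw [mul_apply_eq_comp, ContinuousLinearMap.star_eq_adjoint,
    ContinuousLinearMap.adjoint_inner_right]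

theorem col_apply {ι : Type} [Fintype ι] (a : ι → (H →L[ℂ] H)) (v : H) :
    ∑ i, ‖a i v‖ ^ 2 ≤ colN a * ‖v‖ ^ 2 := by
  have h1 : ((∑ i, ‖a i v‖ ^ 2 : ℝ) : ℂ) = ⟪v, (∑ i, star (a i) * a i) v⟫_ℂ := by
    rw [inner_col]
    push_cast
    refine sum_congr rfl fun i _ => ?_
    rw [inner_self_eq_norm_sq_to_K]
    rfl
  have h0 : 0 ≤ ∑ i, ‖a i v‖ ^ 2 := sum_nonneg fun i _ => by positivity
  have h2 : ∑ i, ‖a i v‖ ^ 2 = ‖((∑ i, ‖a i v‖ ^ 2 : ℝ) : ℂ)‖ := by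
    rw [Complex.norm_real, Real.norm_of_nonneg h0]
  rw [h2, h1]
  refine (norm_inner_le_norm _ _).trans ?_
  have h3 := (∑ i, star (a i) * a i).le_opNorm v
  calc ‖v‖ * ‖(∑ i, star (a i) * a i) v‖ ≤ ‖v‖ * (colN a * ‖v‖) :=
        mul_le_mul_of_nonneg_left h3 (norm_nonneg _)
    _ = colN a * ‖v‖ ^ 2 := by ring

theorem col_le {ι : Type} [Fintype ι] (a : ι → (H →L[ℂ] H)) {B : ℝ} (hB : 0 ≤ B)
    (h : ∀ v, ∑ i, ‖a i v‖ ^ 2 ≤ B * ‖v‖ ^ 2) : colN a ≤ B := by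
  refine ContinuousLinearMap.opNorm_le_bound _ hB fun v => ?_
  set w := (∑ i, star (a i) * a i) v with hw
  have h1 : ‖w‖ ^ 2 ≤ ∑ i, ‖a i w‖ * ‖a i v‖ := by
    have e1 : ((‖w‖ ^ 2 : ℝ) : ℂ) = ∑ i, ⟪a i w, a i v⟫_ℂ := by
      rw [← inner_col, ← hw, inner_self_eq_norm_sq_to_K]
      push_cast
      rfl
    have e2 : ‖w‖ ^ 2 = ‖((‖w‖ ^ 2 : ℝ) : ℂ)‖ := by
      rw [Complex.norm_real, Real.norm_of_nonneg (by positivity)]
    rw [e2, e1]
    exact (norm_sum_le _ _).trans (sum_le_sum fun i _ => norm_inner_le_norm _ _)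
  have h2 : (∑ i, ‖a i w‖ * ‖a i v‖) ^ 2 ≤ (∑ i, ‖a i w‖ ^ 2) * ∑ i, ‖a i v‖ ^ 2 :=
    sum_mul_sq_le_sq_mul_sq _ _ _
  have h3 : (‖w‖ ^ 2) ^ 2 ≤ (B * ‖w‖ ^ 2) * (B * ‖v‖ ^ 2) := by
    refine (pow_le_pow_left₀ (by positivity) h1 2).trans (h2.trans ?_)
    exact mul_le_mul (h w) (h v) (sum_nonneg fun _ _ => by positivity) (by positivity)
  rcases eq_or_ne ‖w‖ 0 with h0 | h0
  · rw [h0]; positivity
  · have h4 : 0 < ‖w‖ := lt_of_le_of_ne (norm_nonneg _) (Ne.symm h0)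
    have h5 : ‖w‖ ^ 2 ≤ (B * ‖v‖) ^ 2 := by
      have h6 : ‖w‖ ^ 2 * ‖w‖ ^ 2 ≤ ‖w‖ ^ 2 * (B * ‖v‖) ^ 2 := by nlinarith
      exact le_of_mul_le_mul_left h6 (by positivity)
    exact (pow_le_pow_iff_left₀ (norm_nonneg _) (by positivity) two_ne_zero).1 h5

/-- evaluation at a vector -/
def evw (w : (H →L[ℂ] H) →ₗ[ℂ] (H →L[ℂ] H)) (ξ : H) : (H →L[ℂ] H) →ₗ[ℂ] H where
  toFun a := w a ξ
  map_add' a b := by simp
  map_smul' c a := by simp

/-- the column bound from the little Grothendieck inequality -/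
theorem col_gt (Q : (H →L[ℂ] H) →ₗ[ℂ] (H →L[ℂ] H)) (C : ℝ) (hC : 0 ≤ C)
    (hQ : ∀ x, ‖Q x‖ ≤ C * ‖x‖) {κ : Type} [Fintype κ] (y : κ → (H →L[ℂ] H)) :
    colN (fun k => Q (y k)) ≤ 3 * C ^ 2 * (colN y + rowN y) := by
  have hc : 0 ≤ colN y := norm_nonneg _
  have hr : 0 ≤ rowN y := norm_nonneg _
  refine col_le _ (by positivity) fun ξ => ?_
  have h1 := gt (H →L[ℂ] H) H (evw Q ξ) (C * ‖ξ‖) (by positivity) (by
    intro b
    change ‖Q b ξ‖ ≤ _
    calc ‖Q b ξ‖ ≤ ‖Q b‖ * ‖ξ‖ := (Q b).le_opNorm ξ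
      _ ≤ (C * ‖b‖) * ‖ξ‖ := mul_le_mul_of_nonneg_right (hQ b) (norm_nonneg _)
      _ = C * ‖ξ‖ * ‖b‖ := by ring) κ y
  change ∑ k, ‖Q (y k) ξ‖ ^ 2 ≤ 3 * (C * ‖ξ‖) ^ 2 * (colN y + rowN y) at h1
  refine h1.trans (le_of_eq ?_)
  ring

theorem core {n : ℕ} (e : Fin n → Fin n → (H →L[ℂ] H)) (he : MU e)
    (Q : (H →L[ℂ] H) →ₗ[ℂ] (H →L[ℂ] H)) (C : ℝ) (hC : 0 ≤ C) (hQ : ∀ x, ‖Q x‖ ≤ C * ‖x‖)
    (hm : ∀ i j x, Q (e i j * x) = e i j * Q x) (i₀ : Fin n) {ι : Type} [Fintype ι]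
    (a : ι → (H →L[ℂ] H)) (ha : ∀ i, e i₀ i₀ * a i = a i) :
    colN (fun i => Q (a i)) ≤ 3 * C ^ 2 * (colN a + rowN a / n) := by
  have hn : 0 < (n : ℝ) := by
    have : 0 < n := i₀.pos
    exact_mod_cast this
  set c : ℂ := (((√(n : ℝ))⁻¹ : ℝ) : ℂ) with hc
  have hcc : ‖c‖ ^ 2 * n = 1 := by
    rw [hc, Complex.norm_real, Real.norm_of_nonneg (by positivity), inv_pow,
      Real.sq_sqrt hn.le, inv_mul_cancel₀ hn.ne']
  have hcs : c * star c = ((‖c‖ ^ 2 : ℝ) : ℂ) := by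
    rw [Complex.star_def, Complex.mul_conj, Complex.normSq_eq_norm_sq]
  -- multiplication with a matrix unit preserves the norm
  have hiso : ∀ (j : Fin n) (x : H →L[ℂ] H), e i₀ i₀ * x = x → ∀ v,
      ‖(c • (e j i₀ * x)) v‖ ^ 2 = ‖c‖ ^ 2 * ‖x v‖ ^ 2 := by
    intro j x hx v
    rw [smul_apply, norm_smul, mul_pow]
    congr 1
    have h1 : (⟪(e j i₀ * x) v, (e j i₀ * x) v⟫_ℂ) = ⟪x v, x v⟫_ℂ := by
      rw [mul_apply_eq_comp, ← ContinuousLinearMap.adjoint_inner_right,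
        ← ContinuousLinearMap.star_eq_adjoint, he.adj, ← mul_apply_eq_comp,
        he.mul, if_pos rfl, ← mul_apply_eq_comp, hx]
    rw [inner_self_eq_norm_sq_to_K, inner_self_eq_norm_sq_to_K] at h1
    exact_mod_cast h1
  have hsum : ∀ (x : ι → (H →L[ℂ] H)), (∀ i, e i₀ i₀ * x i = x i) → ∀ v,
      ∑ k : Fin n × ι, ‖(c • (e k.1 i₀ * x k.2)) v‖ ^ 2 = ∑ i, ‖x i v‖ ^ 2 := by
    intro x hx v
    rw [Fintype.sum_prod_type]
    have : ∀ j : Fin n, ∑ i, ‖(c • (e j i₀ * x i)) v‖ ^ 2 = ‖c‖ ^ 2 * ∑ i, ‖x i v‖ ^ 2 := by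
      intro j
      rw [mul_sum]
      exact sum_congr rfl fun i _ => hiso j (x i) (hx i) v
    rw [sum_congr rfl fun j _ => this j, sum_const, card_univ, Fintype.card_fin, nsmul_eq_mul,
      ← mul_assoc, mul_comm (n : ℝ), hcc, one_mul]
  set y : Fin n × ι → (H →L[ℂ] H) := fun k => c • (e k.1 i₀ * a k.2) with hy
  have hQy : ∀ k, Q (y k) = c • (e k.1 i₀ * Q (a k.2)) := fun k => by
    rw [hy]; simp only [map_smul, hm]
  have hQa : ∀ i, e i₀ i₀ * Q (a i) = Q (a i) := fun i => by rw [← hm, ha]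
  have key := col_gt Q C hC hQ y
  have hr0 : 0 ≤ rowN a := norm_nonneg _
  -- the columns
  have hcol : colN y ≤ colN a := by
    refine col_le _ (norm_nonneg _) fun v => ?_
    rw [hsum a ha v]
    exact col_apply a v
  -- the rows
  have hrow : rowN y ≤ rowN a / n := by
    have e1 : rowN y = colN (fun k => star (y k)) := by
      unfold rowN colN
      simp only [star_star]
    rw [e1]
    refine col_le _ (by positivity) fun v => ?_
    have e2 : ∀ k : Fin n × ι, ‖star (y k) v‖ ^ 2 = ‖c‖ ^ 2 * ‖star (a k.2) (e i₀ k.1 v)‖ ^ 2 := by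
      intro k
      rw [hy]
      simp only
      rw [star_smul, star_mul, he.adj, smul_apply, norm_smul, mul_pow,
        norm_star, mul_apply_eq_comp]
    rw [sum_congr rfl fun k _ => e2 k, Fintype.sum_prod_type]
    have e3 : ∀ j : Fin n, ∑ i, ‖c‖ ^ 2 * ‖star (a i) (e i₀ j v)‖ ^ 2 ≤
        ‖c‖ ^ 2 * (rowN a * ‖e i₀ j v‖ ^ 2) := by
      intro j
      rw [← mul_sum]
      refine mul_le_mul_of_nonneg_left ?_ (by positivity)
      have := col_apply (fun i => star (a i)) (e i₀ j v)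
      have e4 : colN (fun i => star (a i)) = rowN a := by
        unfold rowN colN
        simp only [star_star]
      rwa [e4] at this
    refine (sum_le_sum fun j _ => e3 j).trans ?_
    -- the sum of the diagonal projections
    set E : H →L[ℂ] H := ∑ j, e j j with hE
    have hEs : star E = E := by
      rw [hE, star_sum]
      exact sum_congr rfl fun j _ => he.adj j j
    have hEE : E * E = E := by
      rw [hE, sum_mul_sum]
      refine sum_congr rfl fun i _ => ?_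
      rw [sum_eq_single i]
      · rw [he.mul, if_pos rfl]
      · intro j _ hj
        rw [he.mul, if_neg (Ne.symm hj)]
      · simp
    have e5 : ∑ j, ‖e i₀ j v‖ ^ 2 ≤ ‖v‖ ^ 2 := by
      have e6 : ((∑ j, ‖e i₀ j v‖ ^ 2 : ℝ) : ℂ) = ⟪v, E v⟫_ℂ := by
        push_cast
        rw [hE, _root_.sum_apply, inner_sum]
        refine sum_congr rfl fun j _ => ?_
        have e7 : (⟪e i₀ j v, e i₀ j v⟫_ℂ) = ⟪v, e j j v⟫_ℂ := by
          rw [← ContinuousLinearMap.adjoint_inner_right, ← ContinuousLinearMap.star_eq_adjoint,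
            he.adj, ← mul_apply_eq_comp, he.mul, if_pos rfl]
        rw [← e7, inner_self_eq_norm_sq_to_K]
        rfl
      have e8 : (⟪v, E v⟫_ℂ) = ((‖E v‖ ^ 2 : ℝ) : ℂ) := by
        have e9 : (⟪E v, E v⟫_ℂ) = ⟪v, E v⟫_ℂ := by
          rw [← ContinuousLinearMap.adjoint_inner_right, ← ContinuousLinearMap.star_eq_adjoint,
            hEs, ← mul_apply_eq_comp, hEE]
        rw [← e9, inner_self_eq_norm_sq_to_K]
        push_cast
        rfl
      rw [e8] at e6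
      have e10 : ∑ j, ‖e i₀ j v‖ ^ 2 = ‖E v‖ ^ 2 := by exact_mod_cast e6
      rw [e10]
      have e11 : ‖E v‖ ^ 2 ≤ ‖v‖ * ‖E v‖ := by
        have : ‖((‖E v‖ ^ 2 : ℝ) : ℂ)‖ ≤ ‖v‖ * ‖E v‖ := by
          rw [← e8]; exact norm_inner_le_norm _ _
        rwa [Complex.norm_real, Real.norm_of_nonneg (by positivity)] at this
      nlinarith [norm_nonneg v, norm_nonneg (E v), sq_nonneg (‖v‖ - ‖E v‖)]
    have e12 : ∑ j, ‖c‖ ^ 2 * (rowN a * ‖e i₀ j v‖ ^ 2) =
        ‖c‖ ^ 2 * rowN a * ∑ j, ‖e i₀ j v‖ ^ 2 := by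
      rw [mul_sum]
      exact sum_congr rfl fun j _ => by ring
    rw [e12]
    have e13 : ‖c‖ ^ 2 = 1 / n := by
      field_simp
      exact hcc
    rw [e13]
    calc 1 / (n : ℝ) * rowN a * ∑ j, ‖e i₀ j v‖ ^ 2 ≤ 1 / (n : ℝ) * rowN a * ‖v‖ ^ 2 :=
          mul_le_mul_of_nonneg_left e5 (by positivity)
      _ = rowN a / n * ‖v‖ ^ 2 := by ring
  have hfin : colN (fun i => Q (a i)) ≤ colN (fun k => Q (y k)) := by
    refine col_le _ (norm_nonneg _) fun v => ?_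
    have h2 := col_apply (fun k => Q (y k)) v
    refine le_trans (le_of_eq ?_) h2
    rw [← hsum (fun i => Q (a i)) hQa v]
    refine sum_congr rfl fun k _ => ?_
    rw [hQy]
  refine hfin.trans (key.trans ?_)
  have h3 : 0 ≤ 3 * C ^ 2 := by positivity
  exact mul_le_mul_of_nonneg_left (add_le_add hcol hrow) h3

/-- the map `x ↦ Q(x*)*` -/
def qst (Q : (H →L[ℂ] H) →ₗ[ℂ] (H →L[ℂ] H)) : (H →L[ℂ] H) →ₗ[ℂ] (H →L[ℂ] H) where
  toFun a := star (Q (star a))
  map_add' a b := by simp only [star_add, map_add]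
  map_smul' c a := by
    simp only [star_smul, map_smul, RingHom.id_apply, RCLike.star_def, Complex.conj_conj]

end R_coraux

open R_coraux in
theorem prove_R_cor : R_cor := by
  intro H _ _ _ M C hC z hz n e heM he Q hQ i₀ ι _ a ha
  obtain ⟨hQ1, -, -, hQ4⟩ := hQ
  refine ⟨core e he Q C hC hQ1 (fun i j x => (hQ4 i j x).1) i₀ a fun i => (ha i).1, ?_⟩
  have h1 : ∀ x, ‖qst Q x‖ ≤ C * ‖x‖ := by
    intro x
    show ‖star (Q (star x))‖ ≤ _
    rw [norm_star]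
    exact (hQ1 _).trans (by rw [norm_star])
  have h2 : ∀ i j x, qst Q (e i j * x) = e i j * qst Q x := by
    intro i j x
    show star (Q (star (e i j * x))) = e i j * star (Q (star x))
    rw [star_mul, he.adj, (hQ4 j i (star x)).2, star_mul, he.adj]
  have h3 : ∀ i, e i₀ i₀ * star (a i) = star (a i) := by
    intro i
    have := congrArg star (ha i).2
    rwa [star_mul, he.adj] at this
  have key := core e he (qst Q) C hC h1 h2 i₀ (fun i => star (a i)) h3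
  have e1 : colN (fun i => qst Q (star (a i))) = rowN (fun i => Q (a i)) := by
    unfold colN rowN
    show ‖∑ i, star (star (Q (star (star (a i))))) * star (Q (star (star (a i))))‖ = _
    simp only [star_star]
  have e2 : colN (fun i => star (a i)) = rowN a := by
    unfold rowN colN
    simp only [star_star]
  have e3 : rowN (fun i => star (a i)) = colN a := by
    unfold rowN colN
    simp only [star_star]
  rwa [e1, e2, e3] at key

end H68R2.BP
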